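import Pool.Agent.CKS.St
import Pool.Agent.SDN.GS

set_option autoImplicit false

/-!
# M2: the gauge of a smooth symmetric convex body is a smooth norm
-/

namespace Pool.Agent.CKS

open Set Filter Topology

theorem thm_Gauge : St_Gauge := by
  intro E _ _ _ O Φ R hO h0 hconv hsym hsm hΦ0 hcl hbd
  set U : Set E := {f : E | f ∈ O ∧ Φ f ≤ 1} with hU
  have hUc : Convex ℝ U := hconv.convex_le 1
  have h0U : (0 : E) ∈ U := ⟨h0, by rw [hΦ0]; norm_num⟩
  have hUn : U ∈ 𝓝 (0 : E) := by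
    have h1 : ContinuousAt Φ 0 := (hsm.continuousOn.continuousAt (hO.mem_nhds h0))
    have h2 : ∀ᶠ f in 𝓝 (0 : E), Φ f < 1 := by
      have h3 : ∀ᶠ y in 𝓝 (Φ 0), y < 1 := by
        rw [hΦ0]
        exact Iio_mem_nhds (by norm_num)
      exact h1.eventually h3
    filter_upwards [h2, hO.mem_nhds h0] with f hf hfO
    exact ⟨hfO, hf.le⟩
  have hUa : Absorbent ℝ U := absorbent_nhds_zero hUn
  have hUb : Balanced ℝ U := by
    rw [balanced_iff_neg_mem hUc]
    intro x hx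
    obtain ⟨h1, h2⟩ := hsym x hx.1
    exact ⟨h1, by rw [h2]; exact hx.2⟩
  let N : Seminorm ℝ E := gaugeSeminorm hUb hUc hUa
  have hN : ∀ f, N f = gauge U f := fun f => rfl
  have hR0 : 0 ≤ R := by
    have := hbd 0 h0 (by rw [hΦ0]; norm_num)
    simpa using this
  have hle1 : ∀ z, N z ≤ 1 ↔ z ∈ U := by
    intro z
    rw [hN, gauge_le_one_iff_mem_closure hUc hUn, hcl.closure_eq]
  obtain ⟨r, hr, hball⟩ := Metric.mem_nhds_iff.1 hUn
  have hlow : ∀ f : E, (R + 1)⁻¹ * ‖f‖ ≤ N f := by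
    intro f
    have h1 := le_gauge_of_subset_closedBall (x := f) hUa (by linarith : (0 : ℝ) ≤ R + 1)
      (fun x hx => by
        rw [mem_closedBall_zero_iff]
        exact (hbd x hx.1 hx.2).trans (by linarith))
    rw [hN, inv_mul_eq_div]
    exact h1
  have hup : ∀ f : E, N f ≤ r⁻¹ * ‖f‖ := by
    intro f
    have h1 := mul_gauge_le_norm (x := f) hball
    rw [hN, inv_mul_eq_div, le_div_iff₀ hr, mul_comm]
    exact h1
  refine ⟨N, ⟨(R + 1)⁻¹, r⁻¹, by positivity, by positivity, fun f => ⟨hlow f, hup f⟩⟩, ?_⟩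
  intro f hf
  refine SDN.thm_GS E N ?_ f ?_
  · intro x hx
    have hxU : x ∈ U := (hle1 x).1 hx.le
    refine ⟨O, Φ, hO, h0, hxU.1, hsm.contDiffAt (hO.mem_nhds hxU.1), hconv, hΦ0, ?_⟩
    filter_upwards [hO.mem_nhds hxU.1] with z hz
    rw [hle1]
    exact ⟨fun h => h.2, fun h => ⟨hz, h⟩⟩
  · have h1 : 0 < (R + 1)⁻¹ * ‖f‖ := by
      have := norm_pos_iff.2 hf
      positivity
    exact (lt_of_lt_of_le h1 (hlow f)).ne'

end Pool.Agent.CKS
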