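import Pool.Agent.CKS.St

set_option autoImplicit false

/-!
# A smooth convex monotone function which vanishes on the nonpositive half line
-/

namespace Pool.Agent.CKS

open Set Filter Topology MeasureTheory intervalIntegral

/-- The primitive of the standard flat function. -/
noncomputable def thetaPrim (x : ℝ) : ℝ := ∫ t in (0 : ℝ)..x, expNegInvGlue t

theorem thetaPrim_hasDerivAt (x : ℝ) : HasDerivAt thetaPrim (expNegInvGlue x) x := by
  have hc : Continuous expNegInvGlue := (expNegInvGlue.contDiff (n := 0)).continuous
  exact intervalIntegral.integral_hasDerivAt_right (hc.intervalIntegrable 0 x)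
    hc.aestronglyMeasurable.stronglyMeasurableAtFilter hc.continuousAt

theorem thetaPrim_deriv : deriv thetaPrim = expNegInvGlue :=
  funext fun x => (thetaPrim_hasDerivAt x).deriv

theorem thetaPrim_differentiable : Differentiable ℝ thetaPrim :=
  fun x => (thetaPrim_hasDerivAt x).differentiableAt

theorem thetaPrim_contDiff : ContDiff ℝ ((⊤ : ℕ∞) : WithTop ℕ∞) thetaPrim := by
  rw [contDiff_infty_iff_deriv]
  refine ⟨thetaPrim_differentiable, ?_⟩
  rw [thetaPrim_deriv]
  exact expNegInvGlue.contDiff

theorem thetaPrim_monotone : Monotone thetaPrim := by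
  refine monotone_of_deriv_nonneg thetaPrim_differentiable fun x => ?_
  rw [thetaPrim_deriv]
  exact expNegInvGlue.nonneg x

theorem thetaPrim_convex : ConvexOn ℝ univ thetaPrim := by
  refine Monotone.convexOn_univ_of_deriv thetaPrim_differentiable ?_
  rw [thetaPrim_deriv]
  exact expNegInvGlue.monotone

theorem thetaPrim_nonpos {x : ℝ} (hx : x ≤ 0) : thetaPrim x = 0 := by
  unfold thetaPrim
  rw [intervalIntegral.integral_symm, neg_eq_zero]
  rw [intervalIntegral.integral_congr (g := fun _ => (0 : ℝ))]
  · simp
  · intro t ht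
    rw [uIcc_of_le hx] at ht
    exact expNegInvGlue.zero_of_nonpos ht.2

theorem thetaPrim_one_pos : 0 < thetaPrim 1 := by
  have hc : Continuous expNegInvGlue := (expNegInvGlue.contDiff (n := 0)).continuous
  exact intervalIntegral.intervalIntegral_pos_of_pos_on (hc.intervalIntegrable 0 1)
    (fun x hx => expNegInvGlue.pos_of_pos hx.1) one_pos

/-- Module THETA: a smooth convex monotone function, zero on the nonpositive half line, with
value `2` at `1`. -/
theorem thm_Theta : St_Theta := by
  have h1 := thetaPrim_one_pos
  have hc : 0 ≤ 2 / thetaPrim 1 := by positivity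
  refine ⟨fun x => 2 / thetaPrim 1 * thetaPrim x, ?_, ?_, ?_, ?_, ?_⟩
  · exact contDiff_const.mul thetaPrim_contDiff
  · have := thetaPrim_convex.smul hc
    exact this
  · intro x y hxy
    exact mul_le_mul_of_nonneg_left (thetaPrim_monotone hxy) hc
  · intro x hx
    show 2 / thetaPrim 1 * thetaPrim x = 0
    rw [thetaPrim_nonpos hx, mul_zero]
  · show 2 / thetaPrim 1 * thetaPrim 1 = 2
    exact div_mul_cancel₀ 2 h1.ne'

end Pool.Agent.CKS
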