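import Pool.Agent.CKS.St

set_option autoImplicit false

/-!
# Compactness facts for a layered complement (module COMP)
-/

namespace Pool.Agent.CKS

open Set Filter Topology

section

variable {K X : Type} [TopologicalSpace K] [NormedAddCommGroup X]

theorem jump_none {s : K → Option K} {f : C(K, X)} {t : K} (h : s t = none) :
    jump s f t = ‖f t‖ := by
  unfold jump
  rw [h]

theorem jump_some {s : K → Option K} {f : C(K, X)} {t v : K} (h : s t = some v) :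
    jump s f t = ‖f t - f v‖ := by
  unfold jump
  rw [h]

theorem comp_local (F : Set K) (J : Type) (j : K → J) (β δ : J → ℝ) (s : K → Option K)
    (hL : Layered K F J j β δ s) (f : C(K, X)) (hF : ∀ t ∈ F, ‖f t‖ < 1)
    (hf : ∀ t, t ∉ F → ‖f t‖ < β (j t) + δ (j t) / 2) (c : ℝ) (hc : 0 < c) (t₀ : K) :
    ∃ ε : ℝ, 0 < ε ∧ ∀ᶠ t in 𝓝 t₀, t ∉ F →
      ‖f t‖ ≤ β (j t) + δ (j t) / 2 - ε ∧ (β (j t) - ε ≤ ‖f t‖ → c ≤ jump s f t → t = t₀) := by
  have hcont : Continuous fun t : K => ‖f t‖ := f.continuous.norm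
  by_cases h0 : t₀ ∈ F
  · have h1 := hF t₀ h0
    refine ⟨(1 - ‖f t₀‖) / 4, by linarith, ?_⟩
    have h2 : ∀ᶠ t in 𝓝 t₀, ‖f t‖ < (‖f t₀‖ + 1) / 2 :=
      hcont.continuousAt.eventually_lt_const (by show ‖f t₀‖ < _; linarith)
    filter_upwards [h2] with t ht htF
    obtain ⟨b1, b2, -⟩ := hL.bounds (j t)
    refine ⟨by linarith, fun h => ?_⟩
    exfalso
    linarith
  · have h1 := hf t₀ h0
    obtain ⟨b1, b2, -⟩ := hL.bounds (j t₀)
    set r : ℝ := (‖f t₀‖ + (β (j t₀) + δ (j t₀) / 2)) / 2 with hr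
    have hr1 : ‖f t₀‖ < r := by rw [hr]; linarith
    have hr2 : r < β (j t₀) + δ (j t₀) / 2 := by rw [hr]; linarith
    refine ⟨min (β (j t₀) + δ (j t₀) / 2 - r) (δ (j t₀) / 2),
      lt_min (by linarith) (by linarith), ?_⟩
    set ε : ℝ := min (β (j t₀) + δ (j t₀) / 2 - r) (δ (j t₀) / 2) with hε
    have e1 : ε ≤ β (j t₀) + δ (j t₀) / 2 - r := min_le_left _ _
    have e2 : ε ≤ δ (j t₀) / 2 := min_le_right _ _
    have h2 : ∀ᶠ t in 𝓝 t₀, ‖f t‖ < r := hcont.continuousAt.eventually_lt_const hr1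
    have hV : {v : K | ‖f v - f t₀‖ < c / 2} ∈ 𝓝 t₀ := by
      have : Continuous fun v : K => ‖f v - f t₀‖ := (f.continuous.sub continuous_const).norm
      exact this.continuousAt.eventually_lt_const (by simpa using half_pos hc)
    have h3 := hL.succ_tendsto t₀ h0 _ hV
    have h4 := hL.sep t₀ h0
    filter_upwards [h2, hV, h3, h4] with t ht1 ht2 ht3 ht4 htF
    by_cases hj : j t = j t₀
    · refine ⟨by rw [hj]; linarith, fun _ hjump => ?_⟩
      by_contra hne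
      obtain ⟨v, hv, hsv⟩ := ht3 hne htF hj
      rw [jump_some hsv] at hjump
      have hv' : ‖f v - f t₀‖ < c / 2 := hv
      have ht2' : ‖f t - f t₀‖ < c / 2 := ht2
      have : ‖f t - f v‖ ≤ ‖f t - f t₀‖ + ‖f v - f t₀‖ := by
        have h5 : f t - f v = (f t - f t₀) - (f v - f t₀) := by abel
        rw [h5]
        exact norm_sub_le _ _
      linarith
    · have h5 := ht4 htF hj
      obtain ⟨c1, c2, -⟩ := hL.bounds (j t)
      refine ⟨by linarith, fun h => ?_⟩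
      exfalso
      linarith

theorem comp_one [CompactSpace K] (F : Set K) (J : Type) (j : K → J) (β δ : J → ℝ)
    (s : K → Option K)
    (hL : Layered K F J j β δ s) (f : C(K, X)) (hF : ∀ t ∈ F, ‖f t‖ < 1)
    (hf : ∀ t, t ∉ F → ‖f t‖ < β (j t) + δ (j t) / 2) (c : ℝ) (hc : 0 < c) :
    ∃ ε : ℝ, 0 < ε ∧ (∀ t, t ∉ F → ‖f t‖ ≤ β (j t) + δ (j t) / 2 - ε) ∧
      {t : K | t ∉ F ∧ β (j t) - ε ≤ ‖f t‖ ∧ c ≤ jump s f t}.Finite := by
  have key : ∃ ε : ℝ, 0 < ε ∧ (∀ t ∈ (univ : Set K), t ∉ F → ‖f t‖ ≤ β (j t) + δ (j t) / 2 - ε) ∧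
      {t : K | t ∈ (univ : Set K) ∧ t ∉ F ∧ β (j t) - ε ≤ ‖f t‖ ∧ c ≤ jump s f t}.Finite := by
    refine isCompact_univ.induction_on
      (p := fun S => ∃ ε : ℝ, 0 < ε ∧ (∀ t ∈ S, t ∉ F → ‖f t‖ ≤ β (j t) + δ (j t) / 2 - ε) ∧
        {t : K | t ∈ S ∧ t ∉ F ∧ β (j t) - ε ≤ ‖f t‖ ∧ c ≤ jump s f t}.Finite) ?_ ?_ ?_ ?_
    · exact ⟨1, one_pos, fun t ht => absurd ht (by simp), by simp⟩
    · rintro S T hST ⟨ε, h1, h2, h3⟩
      exact ⟨ε, h1, fun t ht => h2 t (hST ht),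
        h3.subset fun t ht => ⟨hST ht.1, ht.2⟩⟩
    · rintro S T ⟨ε, h1, h2, h3⟩ ⟨ε', h1', h2', h3'⟩
      refine ⟨min ε ε', lt_min h1 h1', ?_, ?_⟩
      · rintro t (ht | ht) htF
        · have := h2 t ht htF
          have := min_le_left ε ε'
          linarith
        · have := h2' t ht htF
          have := min_le_right ε ε'
          linarith
      · refine (h3.union h3').subset ?_
        rintro t ⟨ht | ht, htF, ha, hb⟩
        · have := min_le_left ε ε'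
          exact Or.inl ⟨ht, htF, by linarith, hb⟩
        · have := min_le_right ε ε'
          exact Or.inr ⟨ht, htF, by linarith, hb⟩
    · intro t₀ _
      obtain ⟨ε, h1, h2⟩ := comp_local F J j β δ s hL f hF hf c hc t₀
      refine ⟨_, mem_nhdsWithin_of_mem_nhds h2, ε, h1, ?_, ?_⟩
      · intro t ht htF
        exact (ht htF).1
      · refine (finite_singleton t₀).subset ?_
        rintro t ⟨ht, htF, ha, hb⟩
        exact (ht htF).2 ha hb
  obtain ⟨ε, h1, h2, h3⟩ := key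
  exact ⟨ε, h1, fun t => h2 t (mem_univ t), h3.subset fun t ht => ⟨mem_univ t, ht⟩⟩

theorem comp_two [CompactSpace K] (F : Set K) (J : Type) (j : K → J) (β δ : J → ℝ)
    (s : K → Option K)
    (hL : Layered K F J j β δ s) (f : C(K, X)) (hF : ∀ t ∈ F, ‖f t‖ < 1)
    (hf : ∀ t, t ∉ F → ‖f t‖ ≤ β (j t) + δ (j t) / 2) (t : K) (htF : t ∉ F)
    (ht : ‖f t‖ = β (j t) + δ (j t) / 2) :
    ∃ u, u ∉ F ∧ j u = j t ∧ ‖f u‖ = β (j u) + δ (j u) / 2 ∧ 0 < jump s f u := by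
  have hcont : Continuous fun t : K => ‖f t‖ := f.continuous.norm
  obtain ⟨b1, b2, -⟩ := hL.bounds (j t)
  set M : Set K := {u | u ∉ F ∧ j u = j t ∧ ‖f u‖ = β (j t) + δ (j t) / 2} with hM
  have hcl : IsClosed M := by
    rw [← closure_subset_iff_isClosed]
    intro u₀ hu₀
    have hval : ‖f u₀‖ = β (j t) + δ (j t) / 2 := by
      have hc : IsClosed {u : K | ‖f u‖ = β (j t) + δ (j t) / 2} :=
        isClosed_eq hcont continuous_const
      exact closure_minimal (fun u hu => hu.2.2) hc hu₀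
    have h0 : u₀ ∉ F := by
      intro h
      have := hF u₀ h
      linarith
    have hj : j u₀ = j t := by
      by_contra hne
      have hfr : ∃ᶠ u in 𝓝 u₀, u ∈ M := mem_closure_iff_frequently.mp hu₀
      obtain ⟨u, huM, hu⟩ := (hfr.and_eventually (hL.sep u₀ h0)).exists
      have h1 := hu huM.1 (by rw [huM.2.1]; exact fun h => hne h.symm)
      rw [huM.2.1] at h1
      have h2 := hf u₀ h0
      obtain ⟨c1, c2, -⟩ := hL.bounds (j u₀)
      linarith
    exact ⟨h0, hj, hval⟩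
  obtain ⟨u, huM, hu⟩ := hL.succ_compact M hcl.isCompact ⟨t, htF, rfl, ht⟩
    (fun u hu => hu.1) (fun u hu v hv => by rw [hu.2.1, hv.2.1])
  refine ⟨u, huM.1, huM.2.1, by rw [huM.2.1]; exact huM.2.2, ?_⟩
  rcases hs : s u with _ | v
  · rw [jump_none hs, huM.2.2]
    linarith
  · rw [jump_some hs]
    obtain ⟨hv1, hv2⟩ := hL.succ_mem u huM.1 v hs
    have hv3 : v ∉ M := fun hv => hu v hv hs
    have hv4 : ‖f v‖ ≤ β (j t) + δ (j t) / 2 := by
      have := hf v hv1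
      rwa [hv2, huM.2.1] at this
    have hv5 : ‖f v‖ ≠ β (j t) + δ (j t) / 2 := fun h => hv3 ⟨hv1, by rw [hv2, huM.2.1], h⟩
    have hv6 : ‖f v‖ < ‖f u‖ := by
      rw [huM.2.2]
      exact lt_of_le_of_ne hv4 hv5
    have := norm_sub_norm_le (f u) (f v)
    linarith

end

theorem thm_Comp : St_Comp := by
  intro K X _ _ _ _ F J j β δ s _ hL f hF
  refine ⟨fun hf => ⟨?_, fun c hc => ?_⟩, fun hf t htF ht => ?_⟩
  · obtain ⟨ε, h1, h2, -⟩ := comp_one F J j β δ s hL f hF hf 1 one_pos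
    exact ⟨ε, h1, h2⟩
  · obtain ⟨ε, h1, -, h3⟩ := comp_one F J j β δ s hL f hF hf c hc
    exact ⟨ε, h1, h3⟩
  · exact comp_two F J j β δ s hL f hF hf t htF ht

end Pool.Agent.CKS
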