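import Pool.Agent.CKS.St

set_option autoImplicit false

/-!
# The gluing theorem for C^infinity norms on C(K, X), from the modules
-/

namespace Pool.Agent.CKS

open Set Filter Topology

section Aux

variable {K X : Type} [TopologicalSpace K] [CompactSpace K] [NormedAddCommGroup X]
  [NormedSpace ℝ X]

/-- restriction to `F` as a continuous linear map -/
noncomputable def restr (F : Set K) [CompactSpace F] : C(K, X) →L[ℝ] C(F, X) :=
  LinearMap.mkContinuous
    { toFun := fun f => f.comp ⟨Subtype.val, continuous_subtype_val⟩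
      map_add' := fun f g => by ext; rfl
      map_smul' := fun c f => by ext; rfl } 1 (by
    intro f
    rw [one_mul, ContinuousMap.norm_le _ (norm_nonneg _)]
    intro t
    exact f.norm_coe_le_norm _)

theorem restr_apply (F : Set K) [CompactSpace F] (f : C(K, X)) (t : F) :
    restr F f t = f t := rfl

/-- evaluation as a continuous linear map -/
noncomputable def evL (t : K) : C(K, X) →L[ℝ] X := ContinuousMap.evalCLM ℝ t

theorem evL_apply (t : K) (f : C(K, X)) : evL t f = f t := rfl

/-- the jump as a continuous linear map -/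
noncomputable def jumpL (s : K → Option K) (t : K) : C(K, X) →L[ℝ] X :=
  match s t with
  | none => evL t
  | some v => evL t - evL v

theorem norm_jumpL (s : K → Option K) (t : K) (f : C(K, X)) :
    ‖jumpL s t f‖ = jump s f t := by
  unfold jumpL jump
  cases s t with
  | none => rfl
  | some v => rfl

theorem jump_nonneg (s : K → Option K) (t : K) (f : C(K, X)) : 0 ≤ jump s f t := by
  rw [← norm_jumpL]; exact norm_nonneg _

theorem jump_le (s : K → Option K) (t : K) (f : C(K, X)) : jump s f t ≤ 2 * ‖f‖ := by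
  have h0 := norm_nonneg f
  unfold jump
  cases s t with
  | none =>
    have := f.norm_coe_le_norm t
    simp only
    linarith
  | some v =>
    have h1 := f.norm_coe_le_norm t
    have h2 := f.norm_coe_le_norm v
    have h3 := norm_sub_le (f t) (f v)
    simp only
    linarith

end Aux

theorem comb_lt {x y a b B : ℝ} (hx : 0 ≤ x) (hy : 0 ≤ y) (hxy : x + y = 1) (ha : a < B)
    (hb : b < B) : x * a + y * b < B := by
  rcases hx.eq_or_lt with h | h
  · subst h
    have : y = 1 := by linarith
    subst this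
    linarith
  · have h1 : x * a < x * B := mul_lt_mul_of_pos_left ha h
    have h2 : y * b ≤ y * B := mul_le_mul_of_nonneg_left hb.le hy
    have h3 : x * B + y * B = B := by rw [← add_mul, hxy, one_mul]
    linarith

theorem main_of (hθ : St_Theta) (hG : St_Gauge) (hS : St_Sum) (hC : St_Comp) : St_Main := by
  intro K X _ _ _ _ _ _ hX F _ hF J j β δ s hL
  classical
  obtain ⟨θ, θC, θconv, θmono, θ0, θ1⟩ := hθ
  obtain ⟨N0, ⟨a, b, ha, hb, hab⟩, hN0⟩ := hF
  have hFc : IsClosed F := (isCompact_iff_compactSpace.2 inferInstance).isClosed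
  -- the seminorms
  let p : Seminorm ℝ C(K, X) := (Real.toNNReal (1 / a)) • (N0.comp (restr F).toLinearMap)
  have hp : ∀ f, p f = (1 / a) * N0 (restr F f) := by
    intro f
    have : p f = (Real.toNNReal (1 / a)) • (N0 (restr F f)) := rfl
    rw [this, NNReal.smul_def, Real.coe_toNNReal _ (by positivity), smul_eq_mul]
  have hpF : ∀ f, ∀ t ∈ F, ‖f t‖ ≤ p f := by
    intro f t ht
    have h1 : ‖f t‖ ≤ ‖restr F f‖ := (restr F f).norm_coe_le_norm ⟨t, ht⟩
    have h2 := (hab (restr F f)).1
    rw [hp]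
    have h3 : ‖restr F f‖ ≤ (1 / a) * N0 (restr F f) := by
      rw [one_div, inv_mul_eq_div, le_div_iff₀ ha]
      linarith
    linarith
  have hrn : ∀ f : C(K, X), ‖restr F f‖ ≤ ‖f‖ := by
    intro f
    rw [ContinuousMap.norm_le _ (norm_nonneg _)]
    intro t
    exact f.norm_coe_le_norm _
  have hpb : ∀ f, p f ≤ (b / a) * ‖f‖ := by
    intro f
    rw [hp]
    have h1 := (hab (restr F f)).2
    have h2 := hrn f
    have : (1 / a) * N0 (restr F f) ≤ (1 / a) * (b * ‖f‖) := by
      apply mul_le_mul_of_nonneg_left _ (by positivity)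
      have := mul_le_mul_of_nonneg_left h2 hb.le
      linarith
    calc (1 / a) * N0 (restr F f) ≤ (1 / a) * (b * ‖f‖) := this
      _ = (b / a) * ‖f‖ := by ring
  let B : K → ℝ := fun t => β (j t) + δ (j t) / 2
  let ι : Type := Option ({t : K // t ∉ F} × ℕ)
  let η : K → ℕ → ℝ := fun t k => δ (j t) * (1 / 2) ^ k / 16
  let κ0 : K → ℕ → ℝ := fun t k => δ (j t) * (1 / 4) ^ k / 64
  have hδ : ∀ t, 0 < δ (j t) := fun t => (hL.bounds _).2.1
  have hβ : ∀ t, 1 ≤ β (j t) := fun t => (hL.bounds _).1
  have hβδ : ∀ t, β (j t) + δ (j t) ≤ 2 := fun t => (hL.bounds _).2.2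
  have hδ1 : ∀ t, δ (j t) ≤ 1 := fun t => by linarith [hβ t, hβδ t]
  have hη0 : ∀ t k, 0 ≤ η t k := fun t k => by
    have := hδ t
    positivity
  have hηδ : ∀ t k, η t k ≤ δ (j t) / 16 := fun t k => by
    have h1 := hδ t
    have h2 : ((1 : ℝ) / 2) ^ k ≤ 1 := pow_le_one₀ (by norm_num) (by norm_num)
    have : δ (j t) * (1 / 2) ^ k ≤ δ (j t) * 1 := mul_le_mul_of_nonneg_left h2 h1.le
    show δ (j t) * (1 / 2) ^ k / 16 ≤ δ (j t) / 16
    linarith
  have hκ0 : ∀ t k, 0 < κ0 t k := fun t k => by
    have := hδ t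
    positivity
  let Sq : K → ℕ → Seminorm ℝ C(K, X) := fun t k =>
    (normSeminorm ℝ X).comp (evL t).toLinearMap +
      (Real.toNNReal (η t k)) • ((normSeminorm ℝ X).comp (jumpL s t).toLinearMap)
  have hSq : ∀ t k f, Sq t k f = ‖f t‖ + η t k * jump s f t := by
    intro t k f
    have : Sq t k f = ‖f t‖ + (Real.toNNReal (η t k)) • ‖jumpL s t f‖ := rfl
    rw [this, NNReal.smul_def, Real.coe_toNNReal _ (hη0 t k), smul_eq_mul, norm_jumpL]
  let S : ι → Seminorm ℝ C(K, X) := fun i =>
    match i with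
    | none => p
    | some q => Sq q.1 q.2
  let τ : ι → ℝ := fun i =>
    match i with
    | none => 1 / 4
    | some q => B q.1 + κ0 q.1 q.2
  let κ : ι → ℝ := fun i =>
    match i with
    | none => 1 / 4
    | some q => κ0 q.1 q.2
  have hB1 : ∀ t, 1 ≤ B t := fun t => by
    have := hδ t
    have := hβ t
    show 1 ≤ β (j t) + δ (j t) / 2
    linarith
  have hB2 : ∀ t, B t ≤ 2 := fun t => by
    have := hδ t
    have := hβδ t
    show β (j t) + δ (j t) / 2 ≤ 2
    linarith
  have hτκ : ∀ i, 0 < τ i ∧ 0 < κ i := by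
    intro i
    match i with
    | none => exact ⟨by norm_num [τ], by norm_num [κ]⟩
    | some q =>
      refine ⟨?_, hκ0 q.1 q.2⟩
      have h1 := hB1 q.1
      have h2 := hκ0 q.1 q.2
      show 0 < B q.1 + κ0 q.1 q.2
      linarith
  let O : Set C(K, X) := {f | p f < 3 / 4 ∧ ∀ t, t ∉ F → ‖f t‖ < B t}
  have hOF : ∀ f ∈ O, ∀ t ∈ F, ‖f t‖ < 1 := by
    intro f hf t ht
    have := hpF f t ht
    have := hf.1
    linarith
  have hOn : ∀ f ∈ O, ‖f‖ ≤ 2 := by
    intro f hf
    rw [ContinuousMap.norm_le _ (by norm_num)]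
    intro t
    by_cases ht : t ∈ F
    · linarith [hOF f hf t ht]
    · linarith [hf.2 t ht, hB2 t]
  have hC1 : ∀ i f, S i f ≤ (b / a + 2) * ‖f‖ := by
    intro i f
    have h0 := norm_nonneg f
    match i with
    | none =>
      have := hpb f
      show p f ≤ _
      nlinarith
    | some q =>
      show Sq q.1 q.2 f ≤ _
      rw [hSq]
      have h1 := f.norm_coe_le_norm (q.1 : K)
      have h2 := jump_le s q.1 f
      have h3 := hη0 q.1 q.2
      have h4 := hηδ q.1 q.2
      have h5 := hδ1 q.1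
      have h6 := jump_nonneg s q.1 f
      have h7 : η q.1 q.2 * jump s f q.1 ≤ (1 / 16) * (2 * ‖f‖) :=
        mul_le_mul (by linarith) h2 h6 (by norm_num)
      have h8 : 0 ≤ b / a * ‖f‖ := by positivity
      nlinarith
  have hpc : Continuous p := by
    apply Seminorm.continuous_of_le (q := (Real.toNNReal (b / a)) • normSeminorm ℝ C(K, X))
    · exact continuous_const.smul continuous_norm
    · intro f
      have : ((Real.toNNReal (b / a)) • normSeminorm ℝ C(K, X)) f =
          (Real.toNNReal (b / a)) • ‖f‖ := rfl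
      rw [this, NNReal.smul_def, Real.coe_toNNReal _ (by positivity), smul_eq_mul]
      exact hpb f
  -- openness
  have hO : IsOpen O := by
    rw [Metric.isOpen_iff]
    intro f hf
    obtain ⟨⟨ε, hε, hε'⟩, -⟩ := (hC K X F J j β δ s hFc hL f (hOF f hf)).1 hf.2
    have hopen : {g : C(K, X) | p g < 3 / 4} ∈ 𝓝 f :=
      (isOpen_lt hpc continuous_const).mem_nhds hf.1
    obtain ⟨r, hr, hr'⟩ := Metric.mem_nhds_iff.1 hopen
    refine ⟨min r ε, lt_min hr hε, ?_⟩
    intro g hg
    rw [Metric.mem_ball] at hg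
    have hg1 : dist g f < r := lt_of_lt_of_le hg (min_le_left _ _)
    have hg2 : dist g f < ε := lt_of_lt_of_le hg (min_le_right _ _)
    refine ⟨hr' (Metric.mem_ball.2 hg1), ?_⟩
    intro t ht
    have h1 := hε' t ht
    have h2 : ‖g t - f t‖ ≤ ‖g - f‖ := (g - f).norm_coe_le_norm t
    rw [dist_eq_norm] at hg2
    have h3 : ‖g t‖ ≤ ‖f t‖ + ‖g t - f t‖ := by
      have := norm_add_le (f t) (g t - f t)
      rwa [add_sub_cancel] at this
    show ‖g t‖ < β (j t) + δ (j t) / 2
    linarith
  have hOconv : Convex ℝ O := by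
    intro f hf g hg x y hx hy hxy
    refine ⟨?_, ?_⟩
    · have h1 : p (x • f + y • g) ≤ x * p f + y * p g := by
        have := map_add_le_add p (x • f) (y • g)
        rw [map_smul_eq_mul, map_smul_eq_mul, Real.norm_of_nonneg hx, Real.norm_of_nonneg hy]
          at this
        exact this
      exact lt_of_le_of_lt h1 (comb_lt hx hy hxy hf.1 hg.1)
    · intro t ht
      have h1 : ‖(x • f + y • g) t‖ ≤ x * ‖f t‖ + y * ‖g t‖ := by
        have : (x • f + y • g) t = x • f t + y • g t := rfl
        rw [this]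
        refine (norm_add_le _ _).trans ?_
        rw [norm_smul, norm_smul, Real.norm_of_nonneg hx, Real.norm_of_nonneg hy]
      exact lt_of_le_of_lt h1 (comb_lt hx hy hxy (hf.2 t ht) (hg.2 t ht))
  have h0O : (0 : C(K, X)) ∈ O := by
    refine ⟨?_, ?_⟩
    · rw [map_zero]; norm_num
    · intro t _
      have := hB1 t
      show ‖(0 : X)‖ < B t
      rw [norm_zero]
      linarith
  have hOneg : ∀ f ∈ O, -f ∈ O := by
    intro f hf
    refine ⟨?_, ?_⟩
    · rw [map_neg_eq_map]; exact hf.1
    · intro t ht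
      have : (-f) t = -(f t) := rfl
      rw [this, norm_neg]
      exact hf.2 t ht
  -- local finiteness
  have hfin : ∀ f ∈ O, ∃ ε : ℝ, 0 < ε ∧ {i | τ i - ε ≤ S i f}.Finite := by
    intro f hf
    obtain ⟨⟨ε, hε, hε'⟩, hB⟩ := (hC K X F J j β δ s hFc hL f (hOF f hf)).1 hf.2
    obtain ⟨ε1, hε1, hfin1⟩ := hB (8 * ε) (by positivity)
    obtain ⟨k0, hk0⟩ := exists_pow_lt_of_lt_one (show (0 : ℝ) < ε by exact hε)
      (show (1 / 2 : ℝ) < 1 by norm_num)
    set ε2 := min (ε / 2) ε1 with hε2
    have hε2a : ε2 ≤ ε / 2 := min_le_left _ _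
    have hε2b : ε2 ≤ ε1 := min_le_right _ _
    refine ⟨ε2, lt_min (by linarith) hε1, ?_⟩
    set T : Set K := {t : K | t ∉ F ∧ β (j t) - ε1 ≤ ‖f t‖ ∧ 8 * ε ≤ jump s f t} with hT
    have hfinite : ({(none : ι)} ∪ (some '' ((Subtype.val ⁻¹' T) ×ˢ (Set.Iio k0 : Set ℕ))
        : Set ι)).Finite := by
      apply Set.Finite.union (Set.finite_singleton _)
      apply Set.Finite.image
      apply Set.Finite.prod
      · exact hfin1.preimage Subtype.val_injective.injOn
      · exact Set.finite_Iio k0
    apply hfinite.subset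
    intro i hi
    match i, hi with
    | none, _ => left; rfl
    | some q, hi =>
      right
      refine ⟨q, ?_, rfl⟩
      obtain ⟨⟨t, ht⟩, k⟩ := q
      have hi' : B t + κ0 t k - ε2 ≤ Sq t k f := hi
      rw [hSq] at hi'
      have g1 := hε' t ht
      have g2 := hκ0 t k
      have g3 := hη0 t k
      have g4 := hηδ t k
      have g5 := hδ t
      have g6 := jump_nonneg s t f
      have g7 : jump s f t ≤ 4 := by
        have := jump_le s t f
        have := hOn f hf
        linarith
      have g8 : B t = β (j t) + δ (j t) / 2 := rfl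
      have g9 : ε / 2 ≤ η t k * jump s f t := by
        rw [g8] at hi'
        linarith
      have g10 := hδ1 t
      have g11 : η t k * jump s f t ≤ (1 / 16) * jump s f t :=
        mul_le_mul_of_nonneg_right (by linarith) g6
      have g12 : η t k * jump s f t ≤ (δ (j t) / 16) * 4 := mul_le_mul g4 g7 g6 (by linarith)
      have g13 : η t k * jump s f t ≤ η t k * 4 := mul_le_mul_of_nonneg_left g7 g3
      refine ⟨?_, ?_⟩
      · show t ∈ T
        refine ⟨ht, ?_, ?_⟩
        · rw [g8] at hi'
          linarith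
        · linarith
      · show k < k0
        by_contra hk
        push Not at hk
        have e1 : ((1 : ℝ) / 2) ^ k ≤ (1 / 2) ^ k0 :=
          pow_le_pow_of_le_one (by norm_num) (by norm_num) hk
        have e2 : η t k ≤ (1 / 2) ^ k / 16 := by
          show δ (j t) * (1 / 2) ^ k / 16 ≤ (1 / 2) ^ k / 16
          have : δ (j t) * (1 / 2) ^ k ≤ 1 * (1 / 2) ^ k :=
            mul_le_mul_of_nonneg_right g10 (by positivity)
          linarith
        linarith
  -- smoothness
  have hsm : ∀ f ∈ O, ∀ i, τ i ≤ S i f →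
      ContDiffAt ℝ ((⊤ : ℕ∞) : WithTop ℕ∞) (⇑(S i)) f := by
    intro f hf i hi
    match i, hi with
    | none, hi =>
      have h1 : (1 : ℝ) / 4 ≤ p f := hi
      have h2 : restr F f ≠ 0 := by
        intro h
        rw [hp, h, map_zero, mul_zero] at h1
        norm_num at h1
      have h3 : ContDiffAt ℝ ((⊤ : ℕ∞) : WithTop ℕ∞)
          (fun g => (1 / a) * N0 (restr F g)) f := by
        apply contDiffAt_const.mul
        have hr : ContDiffAt ℝ ((⊤ : ℕ∞) : WithTop ℕ∞) (fun g : C(K, X) => restr F g) f :=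
          (restr F : C(K, X) →L[ℝ] C(F, X)).contDiff.contDiffAt
        exact (hN0 (restr F f) h2).comp f hr
      have h4 : (⇑(S none) : C(K, X) → ℝ) = fun g => (1 / a) * N0 (restr F g) := by
        funext g; exact hp g
      rw [h4]
      exact h3
    | some q, hi =>
      obtain ⟨⟨t, ht⟩, k⟩ := q
      have hi' : B t + κ0 t k ≤ Sq t k f := hi
      rw [hSq] at hi'
      have g1 := hf.2 t ht
      have g2 := hκ0 t k
      have g3 := hη0 t k
      have g4 := hηδ t k
      have g5 := hδ t
      have g6 := jump_nonneg s t f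
      have g7 : jump s f t ≤ 4 := by
        have := jump_le s t f
        have := hOn f hf
        linarith
      have g8 : B t = β (j t) + δ (j t) / 2 := rfl
      have g9 := hβ t
      have g12 : η t k * jump s f t ≤ (δ (j t) / 16) * 4 := mul_le_mul g4 g7 g6 (by linarith)
      have h1 : f t ≠ 0 := by
        intro h
        rw [h, norm_zero] at hi'
        rw [g8] at hi'
        linarith
      have h2 : jumpL s t f ≠ 0 := by
        intro h
        have : jump s f t = 0 := by rw [← norm_jumpL, h, norm_zero]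
        rw [this, mul_zero] at hi'
        linarith
      have h4 : (⇑(S (some (⟨t, ht⟩, k))) : C(K, X) → ℝ) =
          fun g => ‖evL t g‖ + η t k * ‖jumpL s t g‖ := by
        funext g
        have := hSq t k g
        rw [← norm_jumpL] at this
        exact this
      rw [h4]
      apply ContDiffAt.add
      · have hr : ContDiffAt ℝ ((⊤ : ℕ∞) : WithTop ℕ∞) (fun g : C(K, X) => evL t g) f :=
          (evL t : C(K, X) →L[ℝ] X).contDiff.contDiffAt
        exact (hX (f t) h1).comp f hr
      · apply contDiffAt_const.mul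
        have hr : ContDiffAt ℝ ((⊤ : ℕ∞) : WithTop ℕ∞) (fun g : C(K, X) => jumpL s t g) f :=
          (jumpL s t : C(K, X) →L[ℝ] X).contDiff.contDiffAt
        exact (hX (jumpL s t f) h2).comp f hr
  obtain ⟨H1, H2, H3, H4, H5⟩ := hS C(K, X) ι S τ κ (b / a + 2) O θ hτκ hC1 hO hOconv h0O hOneg
    hfin hsm θC θconv θmono θ0
  set Φ : C(K, X) → ℝ := fun f => ∑ᶠ i, θ ((S i f - τ i) / κ i) with hΦ
  have key : ∀ f ∈ O, Φ f ≤ 1 → ∀ i, S i f < τ i + κ i := by
    intro f hf h1 i
    by_contra h2
    push Not at h2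
    have h3 : θ 1 ≤ θ ((S i f - τ i) / κ i) := by
      apply θmono
      rw [le_div_iff₀ (hτκ i).2]
      linarith
    have h4 := H5 f hf i
    rw [θ1] at h3
    have : Φ f = ∑ᶠ k, θ ((S k f - τ k) / κ k) := rfl
    linarith
  have hSc : ∀ i, Continuous (S i) := by
    intro i
    have hpos : 0 ≤ b / a + 2 := by positivity
    apply Seminorm.continuous_of_le (q := (Real.toNNReal (b / a + 2)) • normSeminorm ℝ C(K, X))
    · exact continuous_const.smul continuous_norm
    · intro f
      have : ((Real.toNNReal (b / a + 2)) • normSeminorm ℝ C(K, X)) f =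
          (Real.toNNReal (b / a + 2)) • ‖f‖ := rfl
      rw [this, NNReal.smul_def, Real.coe_toNNReal _ hpos, smul_eq_mul]
      exact hC1 i f
  refine hG C(K, X) O Φ 2 hO h0O H1 (fun f hf => ⟨hOneg f hf, H2 f⟩) H3 H4 ?_
    (fun f hf _ => hOn f hf)
  -- closedness
  apply isClosed_of_closure_subset
  intro f hf
  obtain ⟨g, hg, hgf⟩ := mem_closure_iff_seq_limit.1 hf
  have hev : ∀ t, Tendsto (fun n => g n t) atTop (𝓝 (f t)) := fun t =>
    ((evL t).continuous.tendsto f).comp hgf
  have hpf : p f ≤ 1 / 2 := by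
    have h1 : Tendsto (fun n => p (g n)) atTop (𝓝 (p f)) := (hpc.tendsto f).comp hgf
    apply le_of_tendsto h1
    filter_upwards with n
    have := key (g n) (hg n).1 (hg n).2 none
    have h2 : p (g n) < 1 / 4 + 1 / 4 := this
    linarith
  have hfF : ∀ t ∈ F, ‖f t‖ < 1 := by
    intro t ht
    have := hpF f t ht
    linarith
  have hle : ∀ t, t ∉ F → ‖f t‖ ≤ β (j t) + δ (j t) / 2 := by
    intro t ht
    apply le_of_tendsto (hev t).norm
    filter_upwards with n
    exact ((hg n).1.2 t ht).le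
  have hfO : f ∈ O := by
    refine ⟨by linarith, ?_⟩
    intro t ht
    rcases (hle t ht).lt_or_eq with h | h
    · exact h
    exfalso
    obtain ⟨u, hu1, hu2, hu3, hu4⟩ := (hC K X F J j β δ s hFc hL f hfF).2 hle t ht h
    obtain ⟨k, hk⟩ := exists_pow_lt_of_lt_one (show (0 : ℝ) < 2 * jump s f u by linarith)
      (show (1 / 2 : ℝ) < 1 by norm_num)
    have h1 : B u + κ0 u k + κ0 u k < Sq u k f := by
      rw [hSq, hu3]
      have e1 : κ0 u k = δ (j u) * ((1 / 2) ^ k * (1 / 2) ^ k) / 64 := by
        show δ (j u) * (1 / 4) ^ k / 64 = _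
        rw [← mul_pow]
        norm_num
      have e2 : η u k * jump s f u = δ (j u) * ((1 / 2) ^ k * jump s f u) / 16 := by
        show δ (j u) * (1 / 2) ^ k / 16 * jump s f u = _
        ring
      have e3 : ((1 : ℝ) / 2) ^ k * (1 / 2) ^ k < (1 / 2) ^ k * (2 * jump s f u) :=
        mul_lt_mul_of_pos_left hk (by positivity)
      have e4 := hδ u
      have e5 : δ (j u) * (((1 : ℝ) / 2) ^ k * (1 / 2) ^ k) <
          δ (j u) * ((1 / 2) ^ k * (2 * jump s f u)) := mul_lt_mul_of_pos_left e3 e4
      show β (j u) + δ (j u) / 2 + κ0 u k + κ0 u k < _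
      rw [e1, e2]
      nlinarith
    have h2 : Tendsto (fun n => Sq u k (g n)) atTop (𝓝 (Sq u k f)) :=
      ((hSc (some (⟨u, hu1⟩, k))).tendsto f).comp hgf
    have h3 : ∀ᶠ n in atTop, B u + κ0 u k + κ0 u k < Sq u k (g n) :=
      h2.eventually (lt_mem_nhds h1)
    obtain ⟨n, hn⟩ := h3.exists
    have h4 := key (g n) (hg n).1 (hg n).2 (some (⟨u, hu1⟩, k))
    have h5 : Sq u k (g n) < B u + κ0 u k + κ0 u k := h4
    linarith
  refine ⟨hfO, ?_⟩
  have hc : ContinuousAt Φ f := (H3.contDiffAt (hO.mem_nhds hfO)).continuousAt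
  have h1 : Tendsto (fun n => Φ (g n)) atTop (𝓝 (Φ f)) := hc.tendsto.comp hgf
  apply le_of_tendsto h1
  filter_upwards with n
  exact (hg n).2

end Pool.Agent.CKS
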