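import Pool.Agent.CKS.St

set_option autoImplicit false

/-!
# M6 of the CKS block: sigma-discrete complements are layered
-/

namespace Pool.Agent.CKS

open Set Filter Topology

theorem thm_SigD : St_SigD := by
  intro K _ _ F E hF hcov hdisc
  classical
  set w : ℕ → ℝ := fun n => (1/4:ℝ)^(n+1) with hw
  have wpos : ∀ n, 0 < w n := fun n => by positivity
  have wsumm : Summable w := by
    have h1 : Summable (fun n : ℕ => (1/4:ℝ)^n) :=
      summable_geometric_of_lt_one (by norm_num) (by norm_num)
    simpa [hw, pow_succ] using h1.mul_right (1/4:ℝ)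
  have wtail : ∀ N, ∑' n, w (n + N) = (1/4:ℝ)^N / 3 := by
    intro N
    have h1 : ∀ n, w (n + N) = ((1/4:ℝ)^N * (1/4)) * (1/4:ℝ)^n := by
      intro n
      simp only [hw]
      rw [show n + N + 1 = N + 1 + n by ring, pow_add, pow_succ]
    simp_rw [h1]
    rw [tsum_mul_left, tsum_geometric_of_lt_one (by norm_num) (by norm_num)]
    norm_num
    ring
  set g : ℕ → K → ℝ := fun n t => if t ∈ closure (E n) then 0 else w n with hg
  have g0 : ∀ n t, 0 ≤ g n t := by
    intro n t
    simp only [hg]
    split_ifs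
    · exact le_rfl
    · exact (wpos n).le
  have gw : ∀ n t, g n t ≤ w n := by
    intro n t
    simp only [hg]
    split_ifs
    · exact (wpos n).le
    · exact le_rfl
  have gs : ∀ t, Summable (fun n => g n t) := fun t =>
    Summable.of_nonneg_of_le (fun n => g0 n t) (fun n => gw n t) wsumm
  have h0 : ∀ t, 0 ≤ ∑' n, g n t := fun t => tsum_nonneg (fun n => g0 n t)
  have h1 : ∀ t, ∑' n, g n t ≤ 1 / 3 := by
    intro t
    have h2 : ∑' n, g n t ≤ ∑' n, w n :=
      (gs t).tsum_le_tsum (fun n => gw n t) wsumm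
    have h3 := wtail 0
    simp only [add_zero, pow_zero] at h3
    linarith
  let r : K → ℕ := fun t => if hh : ∃ n, t ∈ E n then hh.choose else 0
  have hr : ∀ t, t ∉ F → t ∈ E (r t) := by
    intro t ht
    have hh : ∃ n, t ∈ E n := hcov t ht
    simp only [r, dif_pos hh]
    exact hh.choose_spec
  refine ⟨id, fun t => 1 + ∑' n, g n t, fun t => w (r t) / 2, ?_, ?_, ?_, ?_, ?_⟩
  · intro i
    refine ⟨by linarith [h0 i], by have := wpos (r i); linarith, ?_⟩
    have h2 : w (r i) ≤ 1 / 4 := by
      simp only [hw]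
      rw [pow_succ]
      have : (1/4:ℝ)^(r i) ≤ 1 := pow_le_one₀ (by norm_num) (by norm_num)
      linarith
    have := h1 i
    linarith
  · intro t ht
    obtain ⟨U, hUo, hUE⟩ := hdisc (r t) t (hr t ht)
    have htU : t ∈ U := by
      have : t ∈ U ∩ E (r t) := by rw [hUE]; exact mem_singleton t
      exact this.1
    have hev : ∀ n, ∀ᶠ u in 𝓝 t, t ∉ closure (E n) → u ∉ closure (E n) := by
      intro n
      by_cases hn : t ∈ closure (E n)
      · exact Eventually.of_forall (fun u hh => absurd hn hh)
      · have : (closure (E n))ᶜ ∈ 𝓝 t := isClosed_closure.isOpen_compl.mem_nhds hn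
        filter_upwards [this] with u hu _
        exact hu
    have hev2 : ∀ᶠ u in 𝓝 t, ∀ n ∈ Finset.range (r t + 1), t ∉ closure (E n) →
        u ∉ closure (E n) := by
      rw [Filter.eventually_all_finset]
      intro n _
      exact hev n
    filter_upwards [hUo.mem_nhds htU, hev2] with u huU hu2 huF hne
    have hne' : u ≠ t := hne
    have hucl : u ∉ closure (E (r t)) := by
      intro hcl
      have hopen : IsOpen (U \ {t}) := hUo.sdiff isClosed_singleton
      have hmem : u ∈ U \ {t} := ⟨huU, hne'⟩
      obtain ⟨y, hy1, hy2⟩ := mem_closure_iff.1 hcl _ hopen hmem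
      have : y ∈ U ∩ E (r t) := ⟨hy1.1, hy2⟩
      rw [hUE] at this
      exact hy1.2 this
    have htcl : t ∈ closure (E (r t)) := subset_closure (hr t ht)
    show 1 + ∑' n, g n t + w (r t) / 2 ≤ 1 + ∑' n, g n u
    have e1 : ∑ n ∈ Finset.range (r t + 1), g n t + ∑' n, g (n + (r t + 1)) t = ∑' n, g n t :=
      (gs t).sum_add_tsum_nat_add (r t + 1)
    have e2 : ∑ n ∈ Finset.range (r t + 1), g n u + ∑' n, g (n + (r t + 1)) u = ∑' n, g n u :=
      (gs u).sum_add_tsum_nat_add (r t + 1)
    have e3 : 0 ≤ ∑' n, g (n + (r t + 1)) u := tsum_nonneg (fun n => g0 _ u)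
    have e4 : ∑' n, g (n + (r t + 1)) t ≤ (1/4:ℝ)^(r t + 1) / 3 := by
      rw [← wtail (r t + 1)]
      exact ((summable_nat_add_iff (r t + 1)).2 (gs t)).tsum_le_tsum
        (fun n => gw _ t) ((summable_nat_add_iff (r t + 1)).2 wsumm)
    have e5 : ∑ n ∈ Finset.range (r t + 1), g n t + w (r t) ≤
        ∑ n ∈ Finset.range (r t + 1), g n u := by
      rw [Finset.sum_range_succ, Finset.sum_range_succ]
      have a1 : g (r t) t = 0 := by simp only [hg, if_pos htcl]
      have a2 : g (r t) u = w (r t) := by simp only [hg, if_neg hucl]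
      have a3 : ∑ n ∈ Finset.range (r t), g n t ≤ ∑ n ∈ Finset.range (r t), g n u := by
        refine Finset.sum_le_sum (fun n hn => ?_)
        by_cases hc : t ∈ closure (E n)
        · have : g n t = 0 := by simp only [hg, if_pos hc]
          rw [this]
          exact g0 n u
        · have hn' : n ∈ Finset.range (r t + 1) :=
            Finset.mem_range.2 (lt_trans (Finset.mem_range.1 hn) (Nat.lt_succ_self _))
          have h3 := hu2 n hn' hc
          simp only [hg, if_neg hc, if_neg h3]
          exact le_rfl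
      rw [a1, a2]
      linarith
    have e6 : w (r t) = (1/4:ℝ)^(r t + 1) := rfl
    have e7 := wpos (r t)
    linarith
  · intro t ht v hv
    cases hv
  · intro t ht V hV
    refine Eventually.of_forall (fun u hne _ hj => ?_)
    exact absurd hj hne
  · intro M _ hne _ _
    obtain ⟨t, ht⟩ := hne
    exact ⟨t, ht, fun v _ hv => by cases hv⟩

end Pool.Agent.CKS
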