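import Mathlib

set_option autoImplicit false

/-!
# Equivalent norms of class C^infinity on C(K, X): statements of the modules

Paper: /team-store/LIFT_MP_3b2a37_helper19.md
-/

namespace Pool.Agent.CKS

open Set Filter Topology

/-- The normed space `E` has an equivalent norm which is of class C^infinity away from zero
(the form of the frozen statement S04387). -/
def HasSmoothNorm (E : Type) [NormedAddCommGroup E] [NormedSpace ℝ E] : Prop :=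
  ∃ N : Seminorm ℝ E,
    (∃ a b : ℝ, 0 < a ∧ 0 < b ∧ ∀ f : E, a * ‖f‖ ≤ N f ∧ N f ≤ b * ‖f‖) ∧
    ∀ f : E, f ≠ 0 → ContDiffAt ℝ ((⊤ : ℕ∞) : WithTop ℕ∞) (⇑N) f

/-- The jump of `f` at `t` with respect to the partial map `s`: the norm of `f t - f (s t)`, and
the norm of `f t` if `s t` is undefined. -/
noncomputable def jump {K X : Type} [TopologicalSpace K] [NormedAddCommGroup X]
    (s : K → Option K) (f : C(K, X)) (t : K) : ℝ :=
  match s t with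
  | none => ‖f t‖
  | some v => ‖f t - f v‖

/-- The complement of `F` is the disjoint union of the pieces `D_i`, the set of all `t ∉ F` with
`j t = i`; `β i` and `δ i` are thresholds, `s` is a partial successor map inside the pieces. -/
structure Layered (K : Type) [TopologicalSpace K] (F : Set K) (J : Type) (j : K → J)
    (β δ : J → ℝ) (s : K → Option K) : Prop where
  bounds : ∀ i, 1 ≤ β i ∧ 0 < δ i ∧ β i + δ i ≤ 2
  sep : ∀ t, t ∉ F → ∀ᶠ u in 𝓝 t, u ∉ F → j u ≠ j t → β (j t) + δ (j t) ≤ β (j u)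
  succ_mem : ∀ t, t ∉ F → ∀ v, s t = some v → v ∉ F ∧ j v = j t
  succ_tendsto : ∀ t, t ∉ F → ∀ V ∈ 𝓝 t, ∀ᶠ u in 𝓝 t,
    u ≠ t → u ∉ F → j u = j t → ∃ v ∈ V, s u = some v
  succ_compact : ∀ M : Set K, IsCompact M → M.Nonempty → (∀ t ∈ M, t ∉ F) →
    (∀ t ∈ M, ∀ u ∈ M, j t = j u) → ∃ t ∈ M, ∀ v ∈ M, s t ≠ some v

/-- M1: the scalar function. -/
def St_Theta : Prop :=
  ∃ θ : ℝ → ℝ, ContDiff ℝ ((⊤ : ℕ∞) : WithTop ℕ∞) θ ∧ ConvexOn ℝ univ θ ∧ Monotone θ ∧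
    (∀ x, x ≤ 0 → θ x = 0) ∧ θ 1 = 2

/-- M2: the gauge of a smooth symmetric convex body is a smooth norm (implicit function theorem). -/
def St_Gauge : Prop :=
  ∀ (E : Type) [NormedAddCommGroup E] [NormedSpace ℝ E] [CompleteSpace E]
    (O : Set E) (Φ : E → ℝ) (R : ℝ),
    IsOpen O → (0 : E) ∈ O → ConvexOn ℝ O Φ → (∀ f ∈ O, -f ∈ O ∧ Φ (-f) = Φ f) →
    ContDiffOn ℝ ((⊤ : ℕ∞) : WithTop ℕ∞) Φ O → Φ 0 = 0 →
    IsClosed {f : E | f ∈ O ∧ Φ f ≤ 1} → (∀ f ∈ O, Φ f ≤ 1 → ‖f‖ ≤ R) →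
    HasSmoothNorm E

/-- M3: locally finite sums of smooth functions of seminorms. -/
def St_Sum : Prop :=
  ∀ (E : Type) [NormedAddCommGroup E] [NormedSpace ℝ E] (ι : Type) (S : ι → Seminorm ℝ E)
    (τ κ : ι → ℝ) (C : ℝ) (O : Set E) (θ : ℝ → ℝ),
    (∀ i, 0 < τ i ∧ 0 < κ i) → (∀ i f, S i f ≤ C * ‖f‖) → IsOpen O → Convex ℝ O → (0 : E) ∈ O →
    (∀ f ∈ O, -f ∈ O) →
    (∀ f ∈ O, ∃ ε : ℝ, 0 < ε ∧ {i | τ i - ε ≤ S i f}.Finite) →
    (∀ f ∈ O, ∀ i, τ i ≤ S i f → ContDiffAt ℝ ((⊤ : ℕ∞) : WithTop ℕ∞) (⇑(S i)) f) →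
    ContDiff ℝ ((⊤ : ℕ∞) : WithTop ℕ∞) θ → ConvexOn ℝ univ θ → Monotone θ →
    (∀ x, x ≤ 0 → θ x = 0) →
    ConvexOn ℝ O (fun f => ∑ᶠ i, θ ((S i f - τ i) / κ i)) ∧
    (∀ f, (∑ᶠ i, θ ((S i (-f) - τ i) / κ i)) = ∑ᶠ i, θ ((S i f - τ i) / κ i)) ∧
    ContDiffOn ℝ ((⊤ : ℕ∞) : WithTop ℕ∞) (fun f => ∑ᶠ i, θ ((S i f - τ i) / κ i)) O ∧
    (∑ᶠ i, θ ((S i 0 - τ i) / κ i)) = 0 ∧
    (∀ f ∈ O, ∀ i, θ ((S i f - τ i) / κ i) ≤ ∑ᶠ k, θ ((S k f - τ k) / κ k))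

/-- M4: the compactness facts (Step 1 and the first half of Step 3 of the paper). -/
def St_Comp : Prop :=
  ∀ (K X : Type) [TopologicalSpace K] [CompactSpace K] [T2Space K] [NormedAddCommGroup X]
    (F : Set K) (J : Type) (j : K → J) (β δ : J → ℝ) (s : K → Option K),
    IsClosed F → Layered K F J j β δ s → ∀ f : C(K, X), (∀ t ∈ F, ‖f t‖ < 1) →
    ((∀ t, t ∉ F → ‖f t‖ < β (j t) + δ (j t) / 2) →
      (∃ ε : ℝ, 0 < ε ∧ ∀ t, t ∉ F → ‖f t‖ ≤ β (j t) + δ (j t) / 2 - ε) ∧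
      (∀ c : ℝ, 0 < c → ∃ ε : ℝ, 0 < ε ∧
        {t : K | t ∉ F ∧ β (j t) - ε ≤ ‖f t‖ ∧ c ≤ jump s f t}.Finite)) ∧
    ((∀ t, t ∉ F → ‖f t‖ ≤ β (j t) + δ (j t) / 2) →
      ∀ t, t ∉ F → ‖f t‖ = β (j t) + δ (j t) / 2 →
        ∃ u, u ∉ F ∧ j u = j t ∧ ‖f u‖ = β (j u) + δ (j u) / 2 ∧ 0 < jump s f u)

/-- M5: the gluing theorem. -/
def St_Main : Prop :=
  ∀ (K X : Type) [TopologicalSpace K] [CompactSpace K] [T2Space K] [NormedAddCommGroup X]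
    [NormedSpace ℝ X] [CompleteSpace X],
    (∀ x : X, x ≠ 0 → ContDiffAt ℝ ((⊤ : ℕ∞) : WithTop ℕ∞) (fun y : X => ‖y‖) x) →
    ∀ (F : Set K) [CompactSpace F], HasSmoothNorm C(F, X) →
    ∀ (J : Type) (j : K → J) (β δ : J → ℝ) (s : K → Option K), Layered K F J j β δ s →
    HasSmoothNorm C(K, X)

/-- M6: if the complement of `F` is a countable union of relatively discrete sets, then it is
layered (one point pieces, empty successor map). -/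
def St_SigD : Prop :=
  ∀ (K : Type) [TopologicalSpace K] [T2Space K] (F : Set K) (E : ℕ → Set K),
    IsClosed F → (∀ t, t ∉ F → ∃ n, t ∈ E n) →
    (∀ n, ∀ t ∈ E n, ∃ U : Set K, IsOpen U ∧ U ∩ E n = {t}) →
    ∃ (j : K → K) (β δ : K → ℝ), Layered K F K j β δ (fun _ => none)

/-- M7: an upper semicontinuous rank function on the complement of `F` with values in a countable
linearly ordered set, all of whose level sets are topological sums of well-ordered sets with the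
order topology, makes the complement of `F` layered. -/
def St_Tower : Prop :=
  ∀ (K : Type) [TopologicalSpace K] [T2Space K] (F : Set K) (A : Type) [LinearOrder A]
    [Countable A] (r : K → A),
    IsClosed F → (∀ t, t ∉ F → ∀ᶠ u in 𝓝 t, u ∉ F → r u ≤ r t) →
    (∀ a : A, ∃ (Γ : Type) (W : Γ → Type) (_ : ∀ γ, LinearOrder (W γ))
      (_ : ∀ γ, TopologicalSpace (W γ)) (_ : ∀ γ, OrderTopology (W γ))
      (_ : ∀ γ, WellFoundedLT (W γ)),
      Nonempty ({t : K // t ∉ F ∧ r t = a} ≃ₜ (Σ γ, W γ))) →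
    ∃ (β δ : A → ℝ) (s : K → Option K), Layered K F A r β δ s

end Pool.Agent.CKS
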