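import Pool.Agent.CKS.St

/-!
# CKS [Sum]: locally finite sums of smooth functions of seminorms (helper71)
-/

set_option autoImplicit false

open Set Filter Topology

namespace Pool.Agent.CKS

/-- M3 -/
theorem thm_Sum : St_Sum := by
  classical
  intro E _ _ ι S τ κ C O θ hpos hC hO hcv h0 hneg hfin hsm hθ hcθ hmθ hθ0
  have hθn : ∀ x, 0 ≤ θ x := by
    intro x
    rcases le_total x 0 with h | h
    · rw [hθ0 x h]
    · rw [← hθ0 0 le_rfl]
      exact hmθ h
  -- terms below the threshold vanish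
  have hz : ∀ i f, S i f ≤ τ i → θ ((S i f - τ i) / κ i) = 0 := by
    intro i f h
    refine hθ0 _ (div_nonpos_of_nonpos_of_nonneg (by linarith) (hpos i).2.le)
  -- local finiteness
  have hloc : ∀ f ∈ O, ∃ I : Finset ι, ∀ᶠ g in 𝓝 f, ∀ i ∉ I, S i g < τ i := by
    intro f hf
    obtain ⟨ε, hε, hI⟩ := hfin f hf
    refine ⟨hI.toFinset, ?_⟩
    have hr : 0 < ε / (|C| + 1) := by positivity
    filter_upwards [Metric.ball_mem_nhds f hr] with g hg i hi
    have h1 : S i f < τ i - ε := by
      by_contra h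
      exact hi (hI.mem_toFinset.2 (not_lt.1 h))
    have h2 : S i g ≤ S i f + S i (g - f) := by
      have h3 := map_add_le_add (S i) f (g - f)
      rwa [add_sub_cancel] at h3
    have h4 : S i (g - f) ≤ |C| * ‖g - f‖ :=
      (hC i _).trans (mul_le_mul_of_nonneg_right (le_abs_self C) (norm_nonneg _))
    have h5 : ‖g - f‖ < ε / (|C| + 1) := by
      rw [← dist_eq_norm]
      exact hg
    have h6 : |C| * ‖g - f‖ ≤ ε := by
      have h7 : (|C| + 1) * ‖g - f‖ < ε := by
        rw [lt_div_iff₀ (by positivity)] at h5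
        linarith
      have h8 := norm_nonneg (g - f)
      nlinarith
    linarith
  have hsum : ∀ (f : E) (I : Finset ι), (∀ i ∉ I, S i f < τ i) →
      (∑ᶠ i, θ ((S i f - τ i) / κ i)) = ∑ i ∈ I, θ ((S i f - τ i) / κ i) := by
    intro f I h
    apply finsum_eq_sum_of_support_subset
    intro i hi
    by_contra h1
    exact hi (hz i f (h i h1).le)
  have hpt : ∀ f ∈ O, ∃ I : Finset ι, ∀ i ∉ I, S i f < τ i := by
    intro f hf
    obtain ⟨I, hI⟩ := hloc f hf
    exact ⟨I, hI.self_of_nhds⟩
  have hcont : ∀ i, Continuous (S i) := by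
    intro i
    rw [continuous_iff_continuousAt]
    intro f
    rw [Metric.continuousAt_iff]
    intro ε hε
    refine ⟨ε / (|C| + 1), by positivity, fun {g} hg => ?_⟩
    have h1 : |S i g - S i f| ≤ S i (g - f) := abs_sub_map_le_sub (S i) g f
    have h4 : S i (g - f) ≤ |C| * ‖g - f‖ :=
      (hC i _).trans (mul_le_mul_of_nonneg_right (le_abs_self C) (norm_nonneg _))
    rw [dist_eq_norm] at hg
    rw [lt_div_iff₀ (by positivity)] at hg
    rw [Real.dist_eq]
    have h8 := norm_nonneg (g - f)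
    nlinarith
  refine ⟨⟨hcv, ?_⟩, ?_, ?_, ?_, ?_⟩
  · intro f hf g hg a b ha hb hab
    have hfg : a • f + b • g ∈ O := hcv hf hg ha hb hab
    obtain ⟨I1, h1⟩ := hpt f hf
    obtain ⟨I2, h2⟩ := hpt g hg
    obtain ⟨I3, h3⟩ := hpt _ hfg
    have e1 := hsum f (I1 ∪ I2 ∪ I3) fun i hi => h1 i fun h => hi
      (Finset.mem_union_left _ (Finset.mem_union_left _ h))
    have e2 := hsum g (I1 ∪ I2 ∪ I3) fun i hi => h2 i fun h => hi
      (Finset.mem_union_left _ (Finset.mem_union_right _ h))
    have e3 := hsum (a • f + b • g) (I1 ∪ I2 ∪ I3) fun i hi => h3 i fun h => hi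
      (Finset.mem_union_right _ h)
    show (∑ᶠ i, θ ((S i (a • f + b • g) - τ i) / κ i)) ≤
      a • (∑ᶠ i, θ ((S i f - τ i) / κ i)) + b • (∑ᶠ i, θ ((S i g - τ i) / κ i))
    rw [e1, e2, e3, smul_eq_mul, smul_eq_mul, Finset.mul_sum, Finset.mul_sum,
      ← Finset.sum_add_distrib]
    refine Finset.sum_le_sum fun i _ => ?_
    have hk := (hpos i).2
    have h4 : S i (a • f + b • g) ≤ a * S i f + b * S i g := by
      calc S i (a • f + b • g) ≤ S i (a • f) + S i (b • g) := map_add_le_add _ _ _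
        _ = a * S i f + b * S i g := by
          rw [map_smul_eq_mul, map_smul_eq_mul, Real.norm_of_nonneg ha, Real.norm_of_nonneg hb]
    have h5 : (S i (a • f + b • g) - τ i) / κ i ≤
        a * ((S i f - τ i) / κ i) + b * ((S i g - τ i) / κ i) := by
      have h6 : a * ((S i f - τ i) / κ i) + b * ((S i g - τ i) / κ i) =
          (a * S i f + b * S i g - (a + b) * τ i) / κ i := by
        field_simp
        ring
      rw [h6, hab, one_mul]
      exact div_le_div_of_nonneg_right (by linarith) hk.le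
    calc θ ((S i (a • f + b • g) - τ i) / κ i)
        ≤ θ (a * ((S i f - τ i) / κ i) + b * ((S i g - τ i) / κ i)) := hmθ h5
      _ ≤ a * θ ((S i f - τ i) / κ i) + b * θ ((S i g - τ i) / κ i) :=
          hcθ.2 (mem_univ _) (mem_univ _) ha hb hab
  · intro f
    refine finsum_congr fun i => ?_
    rw [map_neg_eq_map]
  · intro f hf
    obtain ⟨I, hI⟩ := hloc f hf
    have h1 : (fun g => ∑ᶠ i, θ ((S i g - τ i) / κ i)) =ᶠ[𝓝 f]
        fun g => ∑ i ∈ I, θ ((S i g - τ i) / κ i) := by
      filter_upwards [hI] with g hg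
      exact hsum g I hg
    refine ContDiffAt.contDiffWithinAt (ContDiffAt.congr_of_eventuallyEq ?_ h1)
    refine ContDiffAt.sum fun i _ => ?_
    by_cases h2 : τ i ≤ S i f
    · have h3 : ContDiffAt ℝ ((⊤ : ℕ∞) : WithTop ℕ∞) (fun g => (S i g - τ i) / κ i) f :=
        ((hsm f hf i h2).sub contDiffAt_const).div_const _
      exact ContDiffAt.comp f hθ.contDiffAt h3
    · have h3 : (fun g => θ ((S i g - τ i) / κ i)) =ᶠ[𝓝 f] fun _ => 0 := by
        have h4 : ∀ᶠ g in 𝓝 f, S i g < τ i :=
          (hcont i).continuousAt.eventually_lt continuousAt_const (not_le.1 h2)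
        filter_upwards [h4] with g hg
        exact hz i g hg.le
      exact ContDiffAt.congr_of_eventuallyEq contDiffAt_const h3
  · have h1 : ∀ i, θ ((S i 0 - τ i) / κ i) = 0 := by
      intro i
      apply hz
      rw [map_zero]
      exact (hpos i).1.le
    simp only [h1, finsum_zero]
  · intro f hf i
    obtain ⟨I, hI⟩ := hpt f hf
    refine single_le_finsum (f := fun k => θ ((S k f - τ k) / κ k)) i ?_ fun k => hθn _
    refine I.finite_toSet.subset ?_
    intro k hk
    by_contra h1
    exact hk (hz k f (hI k h1).le)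

end Pool.Agent.CKS
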