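import Mathlib
import Pool.Agent.CKS.St

set_option autoImplicit false

/-!
# M7: towers of topological sums of well-ordered sets
-/

namespace Pool.Agent.CKS

open Set Filter Topology

namespace Tower

/-- a good partial successor map on a topological space -/
def Good (D : Type) [TopologicalSpace D] (σ : D → Option D) : Prop :=
  (∀ t : D, ∀ V ∈ 𝓝 t, ∀ᶠ u in 𝓝 t, u ≠ t → ∃ v ∈ V, σ u = some v) ∧
    ∀ M : Set D, IsCompact M → M.Nonempty → ∃ t ∈ M, ∀ v ∈ M, σ t ≠ some v

open Classical in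
/-- the least element above `x` -/
noncomputable def nxt {W : Type} [LinearOrder W] [WellFoundedLT W] (x : W) : Option W :=
  if h : ∃ y, x < y then some ((wellFounded_lt (α := W)).min {y | x < y} h) else none

theorem nxt_some {W : Type} [LinearOrder W] [WellFoundedLT W] {x v : W} (h : nxt x = some v) :
    x < v := by
  unfold nxt at h
  split_ifs at h with h1
  rw [Option.some.injEq] at h
  rw [← h]
  exact (wellFounded_lt (α := W)).min_mem {y | x < y} h1

theorem nxt_of_lt {W : Type} [LinearOrder W] [WellFoundedLT W] {x y : W} (h : x < y) :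
    ∃ v, nxt x = some v ∧ x < v ∧ v ≤ y := by
  have h1 : ∃ y, x < y := ⟨y, h⟩
  refine ⟨(wellFounded_lt (α := W)).min {y | x < y} h1, ?_,
    (wellFounded_lt (α := W)).min_mem {y | x < y} h1, ?_⟩
  · unfold nxt
    rw [dif_pos h1]
  · exact not_lt.1 ((wellFounded_lt (α := W)).not_lt_min {y | x < y} h)

theorem near {W : Type} [LinearOrder W] [TopologicalSpace W] [OrderTopology W] [WellFoundedLT W]
    (x : W) {V : Set W} (hV : V ∈ 𝓝 x) :
    ∀ᶠ y in 𝓝 x, y ≠ x → ∃ v ∈ V, nxt y = some v := by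
  have h1 : ∀ᶠ y in 𝓝 x, y ≤ x := by
    by_cases h : ∃ y, x < y
    · obtain ⟨y, hy⟩ := h
      obtain ⟨v, hv, hxv, -⟩ := nxt_of_lt hy
      filter_upwards [Iio_mem_nhds hxv] with z hz
      by_contra hcon
      push Not at hcon
      obtain ⟨w, hw, -, hwz⟩ := nxt_of_lt hcon
      rw [hv, Option.some.injEq] at hw
      rw [← hw] at hwz
      exact absurd hz (not_lt.2 hwz)
    · push Not at h
      exact Eventually.of_forall h
  by_cases h : ∃ l, l < x
  · obtain ⟨l, hl, hlV⟩ := exists_Ioc_subset_of_mem_nhds hV h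
    filter_upwards [h1, Ioi_mem_nhds hl] with y hy hly hne
    obtain ⟨v, hv, hyv, hvx⟩ := nxt_of_lt (lt_of_le_of_ne hy hne)
    exact ⟨v, hlV ⟨lt_trans hly hyv, hvx⟩, hv⟩
  · push Not at h
    filter_upwards [h1] with y hy hne
    exact absurd (le_antisymm hy (h y)) hne

theorem exists_good (D : Type) [TopologicalSpace D] (Γ : Type) (W : Γ → Type)
    [∀ γ, LinearOrder (W γ)] [∀ γ, TopologicalSpace (W γ)] [∀ γ, OrderTopology (W γ)]
    [∀ γ, WellFoundedLT (W γ)] (e : D ≃ₜ (Σ γ, W γ)) : ∃ σ : D → Option D, Good D σ := by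
  refine ⟨fun d => (nxt (e d).2).map fun y => e.symm ⟨(e d).1, y⟩, ?_, ?_⟩
  · intro t V hV
    obtain ⟨z, rfl⟩ := e.symm.surjective t
    have hV' : e.symm ⁻¹' V ∈ 𝓝 z := e.symm.continuous.continuousAt hV
    obtain ⟨γ, x⟩ := z
    rw [Sigma.nhds_mk] at hV'
    have hV'' : (Sigma.mk γ) ⁻¹' (e.symm ⁻¹' V) ∈ 𝓝 x := hV'
    have h1 := near x hV''
    have h2 : ∀ᶠ z in 𝓝 (⟨γ, x⟩ : Σ γ, W γ), z ≠ ⟨γ, x⟩ → ∃ y, nxt z.2 = some y ∧
        e.symm ⟨z.1, y⟩ ∈ V := by
      rw [Sigma.nhds_mk, Filter.eventually_map]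
      filter_upwards [h1] with y hy hne
      obtain ⟨v, hv, hyv⟩ := hy (fun h => hne (by rw [h]))
      exact ⟨v, hyv, hv⟩
    have h3 : Tendsto e (𝓝 (e.symm ⟨γ, x⟩)) (𝓝 (⟨γ, x⟩ : Σ γ, W γ)) := by
      have h4 := e.continuous.tendsto (e.symm ⟨γ, x⟩)
      rw [e.apply_symm_apply] at h4
      exact h4
    filter_upwards [h3.eventually h2] with u hu hne
    obtain ⟨y, hy, hyV⟩ := hu (fun h => hne (by rw [← h, e.symm_apply_apply]))
    exact ⟨_, hyV, by simp only [hy, Option.map_some]⟩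
  · intro M hM hne
    obtain ⟨t₀, ht₀⟩ := hne
    have hM' : IsCompact (e '' M) := hM.image e.continuous
    have hMγ : IsCompact ((Sigma.mk (e t₀).1) ⁻¹' (e '' M)) :=
      Topology.IsClosedEmbedding.isCompact_preimage Topology.IsClosedEmbedding.sigmaMk hM'
    have hne' : ((Sigma.mk (e t₀).1) ⁻¹' (e '' M)).Nonempty := ⟨(e t₀).2, t₀, ht₀, rfl⟩
    obtain ⟨x, ⟨t, ht, htx⟩, hmax⟩ := hMγ.exists_isGreatest hne'
    refine ⟨t, ht, fun v hv hcon => ?_⟩
    simp only [Option.map_eq_some_iff] at hcon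
    generalize e t = z at htx hcon
    subst htx
    obtain ⟨y, hy, hyv⟩ := hcon
    have h1 : x < y := nxt_some hy
    have h2 : y ≤ x := hmax ⟨v, hv, by rw [← hyv, e.apply_symm_apply]⟩
    exact absurd h1 (not_lt.2 h2)

/-! ### the weights -/

/-- the weight of a level -/
noncomputable def wt {A : Type} (e : A → ℕ) (a : A) : ℝ := (1 / 4 : ℝ) ^ (e a + 1)

theorem wt_pos {A : Type} (e : A → ℕ) (a : A) : 0 < wt e a := by
  unfold wt
  positivity

theorem geo_summable : Summable fun n : ℕ => (1 / 4 : ℝ) ^ (n + 1) := by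
  have h := summable_geometric_of_lt_one (r := (1 / 4 : ℝ)) (by norm_num) (by norm_num)
  exact (summable_nat_add_iff 1).2 h

theorem geo_le : ∑' n : ℕ, (1 / 4 : ℝ) ^ (n + 1) ≤ 1 := by
  have h : ∀ n : ℕ, (1 / 4 : ℝ) ^ (n + 1) = (1 / 4) * (1 / 4 : ℝ) ^ n := fun n => by
    rw [pow_succ]
    ring
  simp only [h]
  rw [tsum_mul_left, tsum_geometric_of_lt_one (by norm_num) (by norm_num)]
  norm_num

theorem wt_summable {A : Type} {e : A → ℕ} (he : Function.Injective e) : Summable (wt e) :=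
  geo_summable.comp_injective he

theorem wt_tsum_le {A : Type} {e : A → ℕ} (he : Function.Injective e) : ∑' a, wt e a ≤ 1 :=
  le_trans (Summable.tsum_le_tsum_of_inj e he (fun _ _ => by positivity) (fun _ => le_rfl)
    (wt_summable he) geo_summable) geo_le

/-- the sum of the weights of a set of levels -/
noncomputable def sw {A : Type} (e : A → ℕ) (S : Set A) : ℝ := ∑' c, S.indicator (wt e) c

theorem ind_summable {A : Type} {e : A → ℕ} (he : Function.Injective e) (S : Set A) :
    Summable (S.indicator (wt e)) := (wt_summable he).indicator S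

theorem sw_nonneg {A : Type} (e : A → ℕ) (S : Set A) : 0 ≤ sw e S :=
  tsum_nonneg fun c => Set.indicator_nonneg (fun a _ => (wt_pos e a).le) c

theorem sw_mono {A : Type} {e : A → ℕ} (he : Function.Injective e) {S T : Set A} (h : S ⊆ T) :
    sw e S ≤ sw e T :=
  Summable.tsum_le_tsum (fun c => Set.indicator_le_indicator_of_subset h
    (fun a => (wt_pos e a).le) c) (ind_summable he S) (ind_summable he T)

theorem sw_univ {A : Type} {e : A → ℕ} (he : Function.Injective e) : sw e Set.univ ≤ 1 := by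
  unfold sw
  rw [Set.indicator_univ]
  exact wt_tsum_le he

theorem sw_add {A : Type} [LinearOrder A] {e : A → ℕ} (he : Function.Injective e) (a : A) :
    sw e (Ioi a) + wt e a = sw e (Ici a) := by
  have h1 : sw e {a} = wt e a := by
    unfold sw
    rw [tsum_eq_single a]
    · simp
    · intro c hc
      exact Set.indicator_of_notMem (s := ({a} : Set A)) hc (wt e)
  have h2 : (Ici a).indicator (wt e) =
      fun c => (Ioi a).indicator (wt e) c + ({a} : Set A).indicator (wt e) c := by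
    have h3 : Ici a = Ioi a ∪ {a} := by
      ext c
      simp only [mem_Ici, mem_union, mem_Ioi, mem_singleton_iff, le_iff_lt_or_eq, eq_comm]
    have h4 : Disjoint (Ioi a) ({a} : Set A) := by
      rw [Set.disjoint_singleton_right]
      exact lt_irrefl a
    rw [h3, Set.indicator_union_of_disjoint h4]
  have h5 : sw e (Ici a) = sw e (Ioi a) + sw e {a} := by
    unfold sw
    rw [h2]
    exact Summable.tsum_add (ind_summable he _) (ind_summable he _)
  rw [h5, h1]

theorem sw_add_le {A : Type} [LinearOrder A] {e : A → ℕ} (he : Function.Injective e) (a : A) :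
    sw e (Ioi a) + wt e a ≤ 1 := by
  rw [sw_add he]
  exact le_trans (sw_mono he (Set.subset_univ _)) (sw_univ he)

theorem sw_lt {A : Type} [LinearOrder A] {e : A → ℕ} (he : Function.Injective e) {a b : A}
    (h : a < b) : sw e (Ioi b) + wt e b ≤ sw e (Ioi a) := by
  rw [sw_add he]
  exact sw_mono he fun c hc => lt_of_lt_of_le h hc

end Tower

open Tower in
theorem thm_Tower : St_Tower := by
  classical
  intro K _ _ F A _ _ r hF hr hlev
  obtain ⟨e, he⟩ := Countable.exists_injective_nat A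
  have hσ : ∀ a : A, ∃ σ : {t : K // t ∉ F ∧ r t = a} → Option {t : K // t ∉ F ∧ r t = a},
      Good _ σ := by
    intro a
    obtain ⟨Γ, W, i1, i2, i3, i4, ⟨f⟩⟩ := hlev a
    exact exists_good _ Γ W f
  choose σ hσ1 hσ2 using hσ
  let s : K → Option K := fun t =>
    if h : t ∉ F then (σ (r t) ⟨t, h, rfl⟩).map Subtype.val else none
  have hs : ∀ (a : A) (t : {t : K // t ∉ F ∧ r t = a}), s t.1 = (σ a t).map Subtype.val := by
    rintro a ⟨t, ht, rfl⟩
    exact dif_pos ht
  refine ⟨fun a => 1 + sw e (Ioi a), wt e, s, ?_, ?_, ?_, ?_, ?_⟩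
  · intro i
    refine ⟨?_, wt_pos e i, ?_⟩
    · have := sw_nonneg e (Ioi i)
      linarith
    · have := sw_add_le he i
      linarith
  · intro t ht
    filter_upwards [hr t ht] with u hu huF hne
    have h1 : r u < r t := lt_of_le_of_ne (hu huF) hne
    have h2 := sw_lt he h1
    linarith
  · intro t ht v hv
    have h1 := hs (r t) ⟨t, ht, rfl⟩
    rw [h1, Option.map_eq_some_iff] at hv
    obtain ⟨w, -, rfl⟩ := hv
    exact w.2
  · intro t ht V hV
    have h1 : (Subtype.val : {u : K // u ∉ F ∧ r u = r t} → K) ⁻¹' V ∈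
        𝓝 (⟨t, ht, rfl⟩ : {u : K // u ∉ F ∧ r u = r t}) :=
      continuous_subtype_val.continuousAt hV
    have h2 := hσ1 (r t) ⟨t, ht, rfl⟩ _ h1
    rw [nhds_subtype_eq_comap, Filter.eventually_comap] at h2
    filter_upwards [h2] with u hu hne huF hru
    obtain ⟨v, hv, hv2⟩ := hu ⟨u, huF, hru⟩ rfl (fun h => hne (congrArg Subtype.val h))
    refine ⟨v.1, hv, ?_⟩
    have h3 := hs (r t) ⟨u, huF, hru⟩
    rw [h3, hv2]
    rfl
  · intro M hM hne hMF hMj
    obtain ⟨t₀, ht₀⟩ := hne
    let M' : Set {u : K // u ∉ F ∧ r u = r t₀} := Subtype.val ⁻¹' M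
    have h1 : Subtype.val '' M' = M := by
      ext u
      constructor
      · rintro ⟨w, hw, rfl⟩
        exact hw
      · intro hu
        exact ⟨⟨u, hMF u hu, hMj u hu t₀ ht₀⟩, hu, rfl⟩
    have h2 : IsCompact M' := by
      rw [Subtype.isCompact_iff, h1]
      exact hM
    obtain ⟨t, ht, hmax⟩ := hσ2 (r t₀) M' h2 ⟨⟨t₀, hMF t₀ ht₀, rfl⟩, ht₀⟩
    refine ⟨t.1, ht, fun v hv hcon => ?_⟩
    rw [hs (r t₀) t, Option.map_eq_some_iff] at hcon
    obtain ⟨w, hw, rfl⟩ := hcon
    exact hmax w hv hw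

end Pool.Agent.CKS
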